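import Pool.Agent.U378.K4.Bound

/-!
# The Turán density of `K_4^-`: universal rules with few relations

Let `S` be a set of relations and `σ` an involution of `S` (reversal). A structure assigns to each
ordered pair of distinct points a relation `r x y`, with `r y x = σ (r x y)`. The structures are the
oriented graphs (3 relations), the digraphs (4 relations, one pair exchanged by `σ`), the
tournaments with arcs of two colours (4 relations, two pairs exchanged), the oriented graphs with
the pairs of non-adjacent points in any number of colours (one pair exchanged) and so on. A *rule*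
is a set `F` of triples of relations; it encodes a structure by the 3-graph of all triples
`{x, y, z}` such that, for some order of its points, the triple `(r x y, r x z, r y z)` is in `F`.
The rule is *universal* if all 3-graphs encoded with it are `K_4^-`-free (no four points span three
edges). The best known example is the rule of the cyclic triangles of tournaments (Erdős, Hajnal),
with `(1/24 + o(1)) n^3` edges, density `1/4`. The conjectured density `2/7` means
`(1/21 + o(1)) n^3` edges; it is attained by an iterated construction.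

It is proved that a universal rule gives at most `2/45 n^3` edges (density `4/15 < 2/7`) if `σ`
exchanges at most one pair of relations (the number of symmetric relations is arbitrary, also
infinite), and at most `(n^3 - n)/24` edges (density `1/4`) if there are at most four relations and
none of them is symmetric. These two cases contain all rules on at most four relations, so no such
rule gives the conjectured value. Every `K_4^-`-free 3-graph on `n` vertices is encoded with a
universal rule on `n^2` relations.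

Proof.
* `σ` is the identity: a universal rule gives no edge at all (colour the three perfect matchings of
  four points with `x, y, z`).
* `σ` exchanges one pair of relations: all symmetric relations are merged to two (sources and other
  relations; write `x → y` if the triples with one arc, directed from the end of the pair in relation
  `x` to the end of the pair in relation `y`, are edges; no symmetric relation is both a source and a
  sink). There remain the oriented graphs with the pairs of non-adjacent points in two colours and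
  one maximal universal rule, with a flag algebra certificate on 9608 structures with five points,
  checked by the kernel (`Pool.Agent.U378.TM.KM`).
* `σ` exchanges two pairs of relations, with no others (two-coloured tournaments): there are two
  maximal universal rules; the edges are cyclic triangles of the tournament, or of the tournament
  with the arcs of one colour reversed.
-/

set_option autoImplicit false
open Finset
open scoped Classical

namespace Pool.Agent.Results.MP_392c14_co.UniversalRules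

/-- `r` assigns a relation to each pair of points; the relation of a reversed pair is given by
`σ`. -/
def IsStructure {S : Type} (σ : S → S) {n : ℕ} (r : Fin n → Fin n → S) : Prop :=
  ∀ x y, x ≠ y → r y x = σ (r x y)

/-- The 3-graph encoded by `r` with the rule `F`: the 3-element sets with an enumeration `x, y, z`
such that `r x y`, `r x z`, `r y z` satisfy `F`. -/
noncomputable def encoded {S : Type} (F : S → S → S → Prop) {n : ℕ} (r : Fin n → Fin n → S) :
    Finset (Finset (Fin n)) :=
  (univ.powersetCard 3).filter fun s : Finset (Fin n) =>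
    ∃ x y z : Fin n, s = {x, y, z} ∧ F (r x y) (r x z) (r y z)

/-- The 3-graph `H` contains no copy of `K_4^- = {123, 124, 134}`. -/
def K4MinusFree {n : ℕ} (H : Finset (Finset (Fin n))) : Prop :=
  ∀ u v w t : Fin n, u ≠ v → u ≠ w → u ≠ t → v ≠ w → v ≠ t → w ≠ t →
    ¬ ({u, v, w} ∈ H ∧ {u, v, t} ∈ H ∧ {u, w, t} ∈ H)

/-- All 3-graphs encoded with the rule `F` are `K_4^-`-free. -/
def Universal {S : Type} (σ : S → S) (F : S → S → S → Prop) : Prop :=
  ∀ (n : ℕ) (r : Fin n → Fin n → S), IsStructure σ r → K4MinusFree (encoded F r)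

/-! ### edges in terms of numbers -/

/-- `e` is an edge of the structure `rel` for the rule `G` -/
def EdgeG (G : ℕ → ℕ → ℕ → Prop) {n : ℕ} (rel : Fin n → Fin n → ℕ) (e : Finset (Fin n)) : Prop :=
  ∃ f : Fin 3 → Fin n, Function.Injective f ∧ (∀ i, f i ∈ e) ∧
    G (rel (f 0) (f 1)) (rel (f 0) (f 2)) (rel (f 1) (f 2))

/-- the rule `F` in terms of the numbers `π s` -/
def num {S : Type} (F : S → S → S → Prop) (π : S → ℕ) (a b c : ℕ) : Prop :=
  ∃ x y z : S, F x y z ∧ π x = a ∧ π y = b ∧ π z = c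

theorem inj_of_card {n : ℕ} {x y z : Fin n} (h : ({x, y, z} : Finset (Fin n)).card = 3) :
    x ≠ y ∧ x ≠ z ∧ y ≠ z := by
  refine ⟨?_, ?_, ?_⟩
  · rintro rfl
    rw [insert_eq_of_mem (mem_insert_self _ _)] at h
    exact absurd (card_le_two (a := x) (b := z)) (by omega)
  · rintro rfl
    rw [insert_eq_of_mem (by simp)] at h
    exact absurd (card_le_two (a := y) (b := x)) (by omega)
  · rintro rfl
    rw [pair_eq_singleton] at h
    exact absurd (card_le_two (a := x) (b := y)) (by omega)

theorem mem_encoded {S : Type} {F : S → S → S → Prop} {n : ℕ} {r : Fin n → Fin n → S}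
    {e : Finset (Fin n)} :
    e ∈ encoded F r ↔ e.card = 3 ∧ ∃ x y z : Fin n, e = {x, y, z} ∧
      F (r x y) (r x z) (r y z) := by
  unfold encoded
  rw [mem_filter, mem_powersetCard]
  exact ⟨fun h => ⟨h.1.2, h.2⟩, fun h => ⟨⟨subset_univ _, h.1⟩, h.2⟩⟩

theorem edge_num {S : Type} {F : S → S → S → Prop} (π : S → ℕ) {n : ℕ} {r : Fin n → Fin n → S}
    {e : Finset (Fin n)} (h : e ∈ encoded F r) : EdgeG (num F π) (fun x y => π (r x y)) e := by
  obtain ⟨h3, x, y, z, rfl, hF⟩ := mem_encoded.1 h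
  obtain ⟨h1, h2, h4⟩ := inj_of_card h3
  refine ⟨![x, y, z], ?_, ?_, _, _, _, hF, rfl, rfl, rfl⟩
  · intro i j hij
    fin_cases i <;> fin_cases j <;> simp_all
  · intro i
    fin_cases i <;> simp

theorem set_eq {n : ℕ} {e : Finset (Fin n)} (h3 : e.card = 3) {f : Fin 3 → Fin n}
    (hf : Function.Injective f) (hm : ∀ i, f i ∈ e) : e = {f 0, f 1, f 2} := by
  refine (eq_of_subset_of_card_le ?_ ?_).symm
  · intro x hx
    simp only [mem_insert, mem_singleton] at hx
    rcases hx with rfl | rfl | rfl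
    · exact hm 0
    · exact hm 1
    · exact hm 2
  · rw [h3, card_insert_of_notMem, card_pair]
    · exact fun h => absurd (hf h) (by decide)
    · simp only [mem_insert, mem_singleton, not_or]
      exact ⟨fun h => absurd (hf h) (by decide), fun h => absurd (hf h) (by decide)⟩

theorem num_edge {S : Type} {F : S → S → S → Prop} {π : S → ℕ} (hπ : Function.Injective π)
    {n : ℕ} {r : Fin n → Fin n → S} {rel : Fin n → Fin n → ℕ}
    (hr : ∀ x y, x ≠ y → π (r x y) = rel x y) {e : Finset (Fin n)} (h3 : e.card = 3)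
    (h : EdgeG (num F π) rel e) : e ∈ encoded F r := by
  obtain ⟨f, hf, hm, a, b, c, hF, h1, h2, h4⟩ := h
  rw [← hr _ _ fun h => absurd (hf h) (by decide)] at h1
  rw [← hr _ _ fun h => absurd (hf h) (by decide)] at h2
  rw [← hr _ _ fun h => absurd (hf h) (by decide)] at h4
  rw [hπ h1, hπ h2, hπ h4] at hF
  exact mem_encoded.2 ⟨h3, f 0, f 1, f 2, set_eq h3 hf hm, hF⟩

/-- a universal rule gives no three edges on a structure with four points -/
theorem free3 {S : Type} {σ : S → S} {F : S → S → S → Prop} (hU : Universal σ F) {π : S → ℕ}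
    (hπ : Function.Injective π) {rv : ℕ → ℕ} (hσ : ∀ s, π (σ s) = rv (π s))
    (rel : Fin 4 → Fin 4 → ℕ) (hrel : ∀ x y, x ≠ y → rel y x = rv (rel x y))
    {u v w t : Fin 4} (h1 : u ≠ v) (h2 : u ≠ w) (h3 : u ≠ t) (h4 : v ≠ w) (h5 : v ≠ t)
    (h6 : w ≠ t) (e1 : EdgeG (num F π) rel {u, v, w}) (e2 : EdgeG (num F π) rel {u, v, t})
    (e3 : EdgeG (num F π) rel {u, w, t}) : False := by
  have base : ∀ {a b c : Fin 4}, a ≠ b → a ≠ c → b ≠ c → EdgeG (num F π) rel {a, b, c} →
      ∀ x ∈ ({a, b, c} : Finset (Fin 4)), ∀ y ∈ ({a, b, c} : Finset (Fin 4)), x ≠ y →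
        ∃ s, π s = rel x y := by
    intro a b c hab hac hbc he x mx y my hxy
    have hc : ({a, b, c} : Finset (Fin 4)).card = 3 := by
      rw [card_insert_of_notMem (by simp [hab, hac]), card_pair hbc]
    obtain ⟨f, hf, hm, a', b', c', -, g1, g2, g4⟩ := he
    have e := set_eq hc hf hm
    rw [e] at mx my
    simp only [mem_insert, mem_singleton] at mx my
    have n01 : f 0 ≠ f 1 := fun h => absurd (hf h) (by decide)
    have n02 : f 0 ≠ f 2 := fun h => absurd (hf h) (by decide)
    have n12 : f 1 ≠ f 2 := fun h => absurd (hf h) (by decide)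
    rcases mx with rfl | rfl | rfl <;> rcases my with rfl | rfl | rfl
    · exact absurd rfl hxy
    · exact ⟨a', g1⟩
    · exact ⟨b', g2⟩
    · exact ⟨σ a', by rw [hσ, g1, hrel _ _ n01]⟩
    · exact absurd rfl hxy
    · exact ⟨c', g4⟩
    · exact ⟨σ b', by rw [hσ, g2, hrel _ _ n02]⟩
    · exact ⟨σ c', by rw [hσ, g4, hrel _ _ n12]⟩
    · exact absurd rfl hxy
  have all4 : ∀ u v w t : Fin 4, u ≠ v → u ≠ w → u ≠ t → v ≠ w → v ≠ t → w ≠ t → ∀ x y : Fin 4,
      x ≠ y → (x ∈ ({u, v, w} : Finset (Fin 4)) ∧ y ∈ ({u, v, w} : Finset (Fin 4))) ∨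
        (x ∈ ({u, v, t} : Finset (Fin 4)) ∧ y ∈ ({u, v, t} : Finset (Fin 4))) ∨
        (x ∈ ({u, w, t} : Finset (Fin 4)) ∧ y ∈ ({u, w, t} : Finset (Fin 4))) := by
    decide +kernel
  have key : ∀ x y : Fin 4, x ≠ y → ∃ s, π s = rel x y := by
    intro x y hxy
    rcases all4 u v w t h1 h2 h3 h4 h5 h6 x y hxy with ⟨mx, my⟩ | ⟨mx, my⟩ | ⟨mx, my⟩
    · exact base h1 h2 h4 e1 x mx y my hxy
    · exact base h1 h3 h5 e2 x mx y my hxy
    · exact base h2 h3 h6 e3 x mx y my hxy
  obtain ⟨s0, -⟩ := key 0 1 (by decide)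
  set r : Fin 4 → Fin 4 → S := fun x y =>
    if h : ∃ s, π s = rel x y then h.choose else s0 with hr
  have hr1 : ∀ x y, x ≠ y → π (r x y) = rel x y := by
    intro x y hxy
    have h := key x y hxy
    simp only [hr]
    rw [dif_pos h]
    exact h.choose_spec
  have hr2 : IsStructure σ r := by
    intro x y hxy
    apply hπ
    rw [hr1 y x hxy.symm, hrel x y hxy, hσ, hr1 x y hxy]
  refine hU 4 r hr2 u v w t h1 h2 h3 h4 h5 h6 ⟨num_edge hπ hr1 ?_ e1, num_edge hπ hr1 ?_ e2,
    num_edge hπ hr1 ?_ e3⟩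
  · rw [card_insert_of_notMem (by simp [h1, h2]), card_pair h4]
  · rw [card_insert_of_notMem (by simp [h1, h3]), card_pair h5]
  · rw [card_insert_of_notMem (by simp [h2, h3]), card_pair h6]

/-- two exchanged pairs of relations -/
theorem bound_F {G : ℕ → ℕ → ℕ → Prop}
    (hG : ∀ rel : Fin 4 → Fin 4 → ℕ, (∀ x y, x ≠ y → rel y x = Pool.Agent.U378.TF.rv (rel x y)) →
      ∀ u v w t : Fin 4, u ≠ v → u ≠ w → u ≠ t → v ≠ w → v ≠ t → w ≠ t →
        EdgeG G rel {u, v, w} → EdgeG G rel {u, v, t} → EdgeG G rel {u, w, t} → False)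
    {n : ℕ} {rel : Fin n → Fin n → ℕ} (hr : Pool.Agent.U378.TF.Rel4 rel)
    {H : Finset (Finset (Fin n))} (hH : ∀ e ∈ H, e.card = 3)
    (hE : ∀ e ∈ H, EdgeG G rel e) : 24 * H.card + n ≤ n ^ 3 := by
  have key : ∀ {m : ℕ} {rel : Fin m → Fin m → ℕ} (_ : Pool.Agent.U378.TF.Rel4 rel)
      (e : Finset (Fin m)), Pool.Agent.U378.TF.Core.Edge
        (fun c => G (Pool.Agent.U378.TF.dg0 c) (Pool.Agent.U378.TF.dg1 c)
          (Pool.Agent.U378.TF.dg2 c)) rel e ↔ EdgeG G rel e := by
    intro m rel hr e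
    unfold Pool.Agent.U378.TF.Core.Edge EdgeG Pool.Agent.U378.TF.c3
    refine exists_congr fun f => and_congr_right fun _ => and_congr_right fun _ => ?_
    beta_reduce
    rw [Pool.Agent.U378.TF.dg0_q4 (hr.lt _ _), Pool.Agent.U378.TF.dg1_q4 (hr.lt _ _) (hr.lt _ _),
      Pool.Agent.U378.TF.dg2_q4 (hr.lt _ _) (hr.lt _ _)]
  refine Pool.Agent.U378.TF.Core.bound3 (F := fun c => G (Pool.Agent.U378.TF.dg0 c)
    (Pool.Agent.U378.TF.dg1 c) (Pool.Agent.U378.TF.dg2 c)) ?_ hr hH fun e he =>
    (key hr e).2 (hE e he)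
  rintro rel' hr' u v w t h1 h2 h3 h4 h5 h6 ⟨g1, g2, g3⟩
  exact hG rel' hr'.rev u v w t h1 h2 h3 h4 h5 h6 ((key hr' _).1 g1) ((key hr' _).1 g2)
    ((key hr' _).1 g3)

/-! ### the involution is the identity -/

/-- the relation between two of four points: the three perfect matchings -/
def pm {S : Type} (a b c : S) : Fin 4 → Fin 4 → S :=
  ![![a, a, b, c], ![a, a, c, b], ![b, c, a, a], ![c, b, a, a]]

theorem empty_of_id {S : Type} {σ : S → S} (hσ : ∀ s, σ s = s) {F : S → S → S → Prop}
    (hU : Universal σ F) (a b c : S) : ¬ F a b c := by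
  intro hF
  have hs : IsStructure σ (pm a b c) := by
    intro x y hxy
    rw [hσ]
    fin_cases x <;> fin_cases y <;> rfl
  have hm : ∀ u v w : Fin 4, u ≠ v → u ≠ w → v ≠ w →
      ({u, v, w} : Finset (Fin 4)) ∈ encoded F (pm a b c) := by
    intro u v w h1 h2 h3
    have hs3 : ({u, v, w} : Finset (Fin 4)).card = 3 := by
      rw [card_insert_of_notMem (by simp [h1, h2]), card_pair h3]
    have h4 : ∀ s : Finset (Fin 4), s.card = 3 →
        s = {0, 1, 2} ∨ s = {1, 0, 3} ∨ s = {2, 3, 0} ∨ s = {3, 2, 1} := by decide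
    rw [mem_encoded]
    refine ⟨hs3, ?_⟩
    rcases h4 _ hs3 with h | h | h | h
    · exact ⟨0, 1, 2, h, hF⟩
    · exact ⟨1, 0, 3, h, hF⟩
    · exact ⟨2, 3, 0, h, hF⟩
    · exact ⟨3, 2, 1, h, hF⟩
  exact hU 4 _ hs 0 1 2 3 (by decide) (by decide) (by decide) (by decide) (by decide) (by decide)
    ⟨hm _ _ _ (by decide) (by decide) (by decide), hm _ _ _ (by decide) (by decide) (by decide),
      hm _ _ _ (by decide) (by decide) (by decide)⟩

/-! ### numbering the relations -/

theorem numbering {S : Type} [Fintype S] (h4 : Fintype.card S ≤ 4) {σ : S → S}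
    (hσ : ∀ s, σ (σ s) = s) (hf : ∀ s, σ s ≠ s) :
    ∃ π : S → ℕ, Function.Injective π ∧ (∀ s, π s < 4) ∧
      ∀ s, π (σ s) = Pool.Agent.U378.TF.rv (π s) := by
  by_cases hne : Nonempty S
  swap
  · exact ⟨fun _ => 0, fun s => (hne ⟨s⟩).elim, fun s => (hne ⟨s⟩).elim, fun s => (hne ⟨s⟩).elim⟩
  obtain ⟨a⟩ := hne
  have ha := hf a
  by_cases hb : ∃ b, b ≠ a ∧ b ≠ σ a
  · obtain ⟨b, hb1, hb2⟩ := hb
    have hb3 := hf b
    have hb4 : σ b ≠ a := fun h => hb2 (by rw [← h, hσ])
    have hb5 : σ b ≠ σ a := fun h => hb1 (by rw [← hσ b, h, hσ])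
    have all : ∀ s, s = a ∨ s = σ a ∨ s = b ∨ s = σ b := by
      intro s
      by_contra hs
      push Not at hs
      obtain ⟨h1, h2, h3, h5⟩ := hs
      have hc : ({s, a, σ a, b, σ b} : Finset S).card = 5 := by
        rw [card_insert_of_notMem (by simp [h1, h2, h3, h5]),
          card_insert_of_notMem (by simp [ha.symm, hb1.symm, hb4.symm]),
          card_insert_of_notMem (by simp [hb2.symm, hb5.symm]),
          card_pair hb3.symm]
      have := card_le_univ ({s, a, σ a, b, σ b} : Finset S)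
      omega
    set π : S → ℕ := fun s => if s = a then 0 else if s = σ a then 2 else if s = b then 1 else 3
      with hπ
    have p1 : π a = 0 := by simp [hπ]
    have p2 : π (σ a) = 2 := by simp [hπ, ha]
    have p3 : π b = 1 := by simp [hπ, hb1, hb2]
    have p4 : π (σ b) = 3 := by simp [hπ, hb3, hb4, hb5]
    refine ⟨π, fun s t hst => ?_, fun s => ?_, fun s => ?_⟩
    · rcases all s with rfl | rfl | rfl | rfl <;> rcases all t with rfl | rfl | rfl | rfl <;>
        first | rfl | (simp only [p1, p2, p3, p4] at hst; omega)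
    · rcases all s with rfl | rfl | rfl | rfl
      · rw [p1]; norm_num
      · rw [p2]; norm_num
      · rw [p3]; norm_num
      · rw [p4]; norm_num
    · rcases all s with rfl | rfl | rfl | rfl
      · rw [p1, p2]; rfl
      · rw [hσ, p1, p2]; rfl
      · rw [p3, p4]; rfl
      · rw [hσ, p3, p4]; rfl
  · push Not at hb
    have all : ∀ s, s = a ∨ s = σ a := fun s => or_iff_not_imp_left.2 (hb s)
    set π : S → ℕ := fun s => if s = a then 0 else 2 with hπ
    have p1 : π a = 0 := by simp [hπ]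
    have p2 : π (σ a) = 2 := by simp [hπ, ha]
    refine ⟨π, fun s t hst => ?_, fun s => ?_, fun s => ?_⟩
    · rcases all s with rfl | rfl <;> rcases all t with rfl | rfl <;>
        first | rfl | (simp only [p1, p2] at hst; omega)
    · rcases all s with rfl | rfl
      · rw [p1]; norm_num
      · rw [p2]; norm_num
    · rcases all s with rfl | rfl
      · rw [p1, p2]; rfl
      · rw [hσ, p1, p2]; rfl

/-! ### one pair of relations exchanged, any number of symmetric relations -/

section symmetric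

variable {S : Type} {σ : S → S} {F : S → S → S → Prop}

/-- three points `0, 1, 2` with the relations `a, b, c` between `0 1`, `0 2`, `1 2` form an edge -/
def E (σ : S → S) (F : S → S → S → Prop) (a b c : S) : Prop :=
  F a b c ∨ F b a (σ c) ∨ F (σ a) c b ∨ F c (σ a) (σ b) ∨ F (σ b) (σ c) a ∨ F (σ c) (σ b) (σ a)

theorem E23 (hσ : ∀ s, σ (σ s) = s) {a b c : S} (h : E σ F a b c) : E σ F b a (σ c) := by
  unfold E at h ⊢
  rw [hσ]
  tauto

theorem E12 (hσ : ∀ s, σ (σ s) = s) {a b c : S} (h : E σ F a b c) : E σ F (σ a) c b := by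
  unfold E at h ⊢
  rw [hσ]
  tauto

theorem E201 (hσ : ∀ s, σ (σ s) = s) {a b c : S} (h : E σ F a b c) : E σ F (σ b) (σ c) a :=
  E12 hσ (E23 hσ h)

theorem mem_of_E {n : ℕ} {r : Fin n → Fin n → S} (hr : IsStructure σ r) {x y z : Fin n}
    (hxy : x ≠ y) (hxz : x ≠ z) (hyz : y ≠ z) (h : E σ F (r x y) (r x z) (r y z)) :
    ({x, y, z} : Finset (Fin n)) ∈ encoded F r := by
  refine mem_encoded.2 ⟨card_eq_three.2 ⟨x, y, z, hxy, hxz, hyz, rfl⟩, ?_⟩
  unfold E at h
  rw [← hr x y hxy, ← hr x z hxz, ← hr y z hyz] at h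
  rcases h with h | h | h | h | h | h
  · exact ⟨x, y, z, rfl, h⟩
  · exact ⟨x, z, y, by ext t; simp only [mem_insert, mem_singleton]; tauto, h⟩
  · exact ⟨y, x, z, by ext t; simp only [mem_insert, mem_singleton]; tauto, h⟩
  · exact ⟨y, z, x, by ext t; simp only [mem_insert, mem_singleton]; tauto, h⟩
  · exact ⟨z, x, y, by ext t; simp only [mem_insert, mem_singleton]; tauto, h⟩
  · exact ⟨z, y, x, by ext t; simp only [mem_insert, mem_singleton]; tauto, h⟩

theorem E_of_mem {n : ℕ} {r : Fin n → Fin n → S} (hr : IsStructure σ r) {x y z : Fin n}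
    (hxy : x ≠ y) (hxz : x ≠ z) (hyz : y ≠ z)
    (h : ({x, y, z} : Finset (Fin n)) ∈ encoded F r) : E σ F (r x y) (r x z) (r y z) := by
  obtain ⟨-, u, v, w, he, hF⟩ := mem_encoded.1 h
  have mx : u ∈ ({x, y, z} : Finset (Fin n)) := by rw [he]; simp
  have my : v ∈ ({x, y, z} : Finset (Fin n)) := by rw [he]; simp
  have mz : w ∈ ({x, y, z} : Finset (Fin n)) := by rw [he]; simp
  have h3' : ({u, v, w} : Finset (Fin n)).card = 3 := by
    rw [← he, card_insert_of_notMem (by simp [hxy, hxz]), card_pair hyz]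
  obtain ⟨nxy, nxz, nyz⟩ := inj_of_card h3'
  unfold E
  rw [← hr x y hxy, ← hr x z hxz, ← hr y z hyz]
  simp only [mem_insert, mem_singleton] at mx my mz
  rcases mx with rfl | rfl | rfl <;> rcases my with rfl | rfl | rfl <;>
    rcases mz with rfl | rfl | rfl <;>
    first
    | exact absurd rfl nxy
    | exact absurd rfl nxz
    | exact absurd rfl nyz
    | exact Or.inl hF
    | exact Or.inr (Or.inl hF)
    | exact Or.inr (Or.inr (Or.inl hF))
    | exact Or.inr (Or.inr (Or.inr (Or.inl hF)))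
    | exact Or.inr (Or.inr (Or.inr (Or.inr (Or.inl hF))))
    | exact Or.inr (Or.inr (Or.inr (Or.inr (Or.inr hF))))

/-- four points with given relations -/
def s4 (σ : S → S) (a b c d e f : S) : Fin 4 → Fin 4 → S :=
  ![![a, a, b, d], ![σ a, a, c, e], ![σ b, σ c, a, f], ![σ d, σ e, σ f, a]]

theorem s4_str (hσ : ∀ s, σ (σ s) = s) (a b c d e f : S) : IsStructure σ (s4 σ a b c d e f) := by
  intro i j hij
  fin_cases i <;> fin_cases j <;> first
    | exact absurd rfl hij
    | rfl
    | exact (hσ _).symm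

theorem u012 (hσ : ∀ s, σ (σ s) = s) (hU : Universal σ F) {a b c d e f : S} (h0 : E σ F a b c)
    (h1 : E σ F a d e) (h2 : E σ F b d f) : False := by
  have hr := s4_str hσ a b c d e f
  exact hU 4 _ hr 0 1 2 3 (by decide) (by decide) (by decide) (by decide) (by decide) (by decide)
    ⟨mem_of_E hr (by decide) (by decide) (by decide) h0,
      mem_of_E hr (by decide) (by decide) (by decide) h1,
      mem_of_E hr (by decide) (by decide) (by decide) h2⟩

theorem u123 (hσ : ∀ s, σ (σ s) = s) (hU : Universal σ F) {a b c d e f : S}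
    (h1 : E σ F a d e) (h2 : E σ F b d f) (h3 : E σ F c e f) : False := by
  have hr := s4_str hσ a b c d e f
  have s1 : ({3, 0, 1} : Finset (Fin 4)) = {0, 1, 3} := by decide
  have s2 : ({3, 0, 2} : Finset (Fin 4)) = {0, 2, 3} := by decide
  have s3 : ({3, 1, 2} : Finset (Fin 4)) = {1, 2, 3} := by decide
  refine hU 4 _ hr 3 0 1 2 (by decide) (by decide) (by decide) (by decide) (by decide) (by decide)
    ?_
  rw [s1, s2, s3]
  exact ⟨mem_of_E hr (by decide) (by decide) (by decide) h1,
      mem_of_E hr (by decide) (by decide) (by decide) h2,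
      mem_of_E hr (by decide) (by decide) (by decide) h3⟩

/-- three symmetric relations -/
theorem T0 (hσ : ∀ s, σ (σ s) = s) (hU : Universal σ F) {x y z : S} (hx : σ x = x)
    (hy : σ y = y) (hz : σ z = z) (h : E σ F x y z) : False := by
  have h1 := E12 hσ h
  rw [hx] at h1
  have h2 := E201 hσ h
  rw [hy, hz] at h2
  have h3 := E23 hσ h2
  rw [hx] at h3
  exact u012 hσ hU h h1 h2

/-- one arc, between different symmetric relations: no symmetric relation is both a source and a
sink -/
theorem T3 (hσ : ∀ s, σ (σ s) = s) (hU : Universal σ F) {x y z d : S} (hx : σ x = x)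
    (hy : σ y = y) (hz : σ z = z) (h : E σ F x y d) (h' : E σ F y z d) : False := by
  have h1 := E12 hσ h
  rw [hx] at h1
  have h2 := E12 hσ h'
  rw [hy] at h2
  have h3 := E23 hσ h2
  rw [hz] at h3
  exact u012 hσ hU h h1 h2

/-- no stars -/
theorem T4 (hσ : ∀ s, σ (σ s) = s) (hU : Universal σ F) {x d : S} (h : E σ F x d d) : False :=
  u123 hσ hU (a := x) (b := x) (c := x) h h h

/-- no path -/
theorem T5 (hσ : ∀ s, σ (σ s) = s) (hU : Universal σ F) {x d : S} (hx : σ x = x)
    (h : E σ F x d (σ d)) : False := by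
  have h1 := E12 hσ h
  rw [hx] at h1
  have h2 := E201 hσ h1
  rw [hσ] at h2
  have h3 := E201 hσ h
  rw [hσ] at h3
  exact u012 hσ hU h h1 h2

/-- no transitive triple -/
theorem T6 (hσ : ∀ s, σ (σ s) = s) (hU : Universal σ F) {d : S} (h : E σ F d d d) : False :=
  u012 hσ hU h h h

open Pool.Agent.U378.TM in
theorem tq : ∀ x < 4, ∀ y < 4, ∀ z < 4, tp (q4 y x (rv z)) = tp (q4 x y z) ∧
    tp (q4 (rv x) z y) = tp (q4 x y z) := by decide +kernel

/-- the relations merged to four: `d`, `σ d`, sources, other symmetric relations -/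
noncomputable def ph (σ : S → S) (F : S → S → S → Prop) (d s : S) : ℕ :=
  if s = d then 2 else if s = σ d then 3 else if ∃ y, σ y = y ∧ E σ F s y d then 0 else 1

theorem ph_lt (d s : S) : ph σ F d s < 4 := by
  unfold ph
  split_ifs <;> norm_num

theorem ph_d (d : S) : ph σ F d d = 2 := by
  unfold ph
  rw [if_pos rfl]

theorem ph_d' {d : S} (hd : σ d ≠ d) : ph σ F d (σ d) = 3 := by
  unfold ph
  rw [if_neg hd, if_pos rfl]

theorem ph_sym {d s : S} (hσ : ∀ s, σ (σ s) = s) (hd : σ d ≠ d) (hs : σ s = s) :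
    ph σ F d s = if ∃ y, σ y = y ∧ E σ F s y d then 0 else 1 := by
  unfold ph
  rw [if_neg, if_neg]
  · rintro rfl
    rw [hσ] at hs
    exact hd hs.symm
  · rintro rfl
    exact hd hs

theorem ph_rv {d : S} (hσ : ∀ s, σ (σ s) = s) (hd : σ d ≠ d)
    (h2 : ∀ s, σ s = s ∨ s = d ∨ s = σ d) (s : S) :
    ph σ F d (σ s) = Pool.Agent.U378.TM.rv (ph σ F d s) := by
  rcases h2 s with h | h | h
  · rw [h, ph_sym hσ hd h]
    split_ifs <;> decide
  · rw [h, ph_d, ph_d' hd]
    decide
  · rw [h, hσ, ph_d, ph_d' hd]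
    decide

/-- the value of `bit M` at the merged relations -/
def PP (σ : S → S) (F : S → S → S → Prop) (M : ℕ) (d a b c : S) : Prop :=
  Pool.Agent.U378.TM.bit M (Pool.Agent.U378.TM.tp (Pool.Agent.U378.TM.q4
    (ph σ F d a) (ph σ F d b) (ph σ F d c))) = 1

section
variable (hσ : ∀ s, σ (σ s) = s) (hU : Universal σ F) {d : S} (hd : σ d ≠ d)
  (h2 : ∀ s, σ s = s ∨ s = d ∨ s = σ d) {M : ℕ}
include hσ hd h2

theorem P23 {a b c : S} (h : PP σ F M d b a (σ c)) : PP σ F M d a b c := by
  unfold PP at h ⊢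
  rw [ph_rv hσ hd h2, (tq _ (ph_lt d a) _ (ph_lt d b) _ (ph_lt d c)).1] at h
  exact h

theorem P12 {a b c : S} (h : PP σ F M d (σ a) c b) : PP σ F M d a b c := by
  unfold PP at h ⊢
  rw [ph_rv hσ hd h2, (tq _ (ph_lt d a) _ (ph_lt d b) _ (ph_lt d c)).2] at h
  exact h

include hU

/-- two symmetric relations -/
theorem two (hM : Pool.Agent.U378.TM.bit M (Pool.Agent.U378.TM.tp
    (Pool.Agent.U378.TM.q4 0 1 2)) = 1) {a b c : S} (ha : σ a = a) (hb : σ b = b)
    (hc : c = d ∨ c = σ d) (h : E σ F a b c) : PP σ F M d a b c := by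
  have key : ∀ {x y : S}, σ x = x → σ y = y → E σ F x y d → PP σ F M d x y d := by
    intro x y hx hy h
    unfold PP
    rw [ph_sym hσ hd hx, ph_sym hσ hd hy, ph_d, if_pos ⟨y, hy, h⟩, if_neg]
    · exact hM
    · rintro ⟨z, hz, hz'⟩
      exact T3 hσ hU hx hy hz h hz'
  rcases hc with rfl | rfl
  · exact key ha hb h
  · have h3 := E23 hσ h
    rw [hσ] at h3
    refine P23 hσ hd h2 ?_
    rw [hσ]
    exact key hb ha h3

/-- one symmetric relation -/
theorem one {a b c : S} (ha : σ a = a) (hb : b = d ∨ b = σ d)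
    (hc : c = d ∨ c = σ d) (h : E σ F a b c) : False := by
  rcases hb with rfl | rfl <;> rcases hc with rfl | rfl
  · exact T4 hσ hU h
  · exact T5 hσ hU ha h
  · have h1 := E12 hσ h
    rw [ha] at h1
    exact T5 hσ hU ha h1
  · exact T4 hσ hU h

/-- no symmetric relation -/
theorem zero (hc1 : Pool.Agent.U378.TM.bit M (Pool.Agent.U378.TM.tp
      (Pool.Agent.U378.TM.q4 2 3 2)) = 1)
    (hc2 : Pool.Agent.U378.TM.bit M (Pool.Agent.U378.TM.tp
      (Pool.Agent.U378.TM.q4 3 2 3)) = 1)
    {a b c : S} (ha : a = d ∨ a = σ d) (hb : b = d ∨ b = σ d)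
    (hc : c = d ∨ c = σ d) (h : E σ F a b c) : PP σ F M d a b c := by
  rcases ha with rfl | rfl <;> rcases hb with rfl | rfl <;> rcases hc with rfl | rfl
  · exact (T6 hσ hU h).elim
  · have h1 := E23 hσ h
    rw [hσ] at h1
    exact (T6 hσ hU h1).elim
  · unfold PP
    rw [ph_d, ph_d' hd]
    exact hc1
  · have h1 := E12 hσ (E23 hσ h)
    rw [hσ] at h1
    exact (T6 hσ hU h1).elim
  · have h1 := E12 hσ h
    rw [hσ] at h1
    exact (T6 hσ hU h1).elim
  · unfold PP
    rw [ph_d, ph_d' hd]
    exact hc2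
  · have h1 := E23 hσ (E12 hσ h)
    rw [hσ] at h1
    exact (T6 hσ hU h1).elim
  · have h1 := E23 hσ (E12 hσ (E23 hσ h))
    simp only [hσ] at h1
    exact (T6 hσ hU h1).elim

theorem all (h0 : Pool.Agent.U378.TM.bit M (Pool.Agent.U378.TM.tp
      (Pool.Agent.U378.TM.q4 0 1 2)) = 1)
    (hc1 : Pool.Agent.U378.TM.bit M (Pool.Agent.U378.TM.tp
      (Pool.Agent.U378.TM.q4 2 3 2)) = 1)
    (hc2 : Pool.Agent.U378.TM.bit M (Pool.Agent.U378.TM.tp
      (Pool.Agent.U378.TM.q4 3 2 3)) = 1)
    {a b c : S} (h : E σ F a b c) : PP σ F M d a b c := by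
  have fl : ∀ {s : S}, (s = d ∨ s = σ d) → (σ s = d ∨ σ s = σ d) := by
    rintro s (rfl | rfl)
    · exact Or.inr rfl
    · exact Or.inl (hσ _)
  rcases h2 a with ha | ha <;> rcases h2 b with hb | hb <;> rcases h2 c with hc | hc
  · exact (T0 hσ hU ha hb hc h).elim
  · exact two hσ hU hd h2 h0 ha hb hc h
  · refine P12 hσ hd h2 ?_
    have h1 := E12 hσ h
    rw [ha] at h1 ⊢
    exact two hσ hU hd h2 h0 ha hc hb h1
  · exact (one hσ hU hd h2 ha hb hc h).elim
  · refine P23 hσ hd h2 (P12 hσ hd h2 ?_)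
    have h1 := E12 hσ (E23 hσ h)
    rw [hb, hc] at h1 ⊢
    exact two hσ hU hd h2 h0 hb hc ha h1
  · exact (one hσ hU hd h2 hb ha (fl hc) (E23 hσ h)).elim
  · exact (one hσ hU hd h2 hc (fl ha) (fl hb) (E23 hσ (E12 hσ h))).elim
  · exact zero hσ hU hd h2 hc1 hc2 ha hb hc h

theorem upper' {n : ℕ} {r : Fin n → Fin n → S} (hr : IsStructure σ r) :
    45 * (encoded F r).card ≤ 2 * n ^ 3 := by
  have hrel : Pool.Agent.U378.TM.Rel4 (fun x y => ph σ F d (r x y)) := by
    refine ⟨fun x y => ph_lt _ _, fun x y hxy => ?_⟩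
    show ph σ F d (r y x) = _
    rw [hr x y hxy, ph_rv hσ hd h2]
  refine Pool.Agent.U378.TM.bound32784 (fun e he => (mem_encoded.1 he).1) hrel
    fun x y z hxy hxz hyz he => ?_
  exact all hσ hU hd h2 (M := 32784) (by decide +kernel) (by decide +kernel) (by decide +kernel)
    (E_of_mem hr hxy hxz hyz he)

end

end symmetric

theorem upper_sym {S : Type} {σ : S → S} (hσ : ∀ s, σ (σ s) = s) {d : S}
    (h2 : ∀ s, σ s = s ∨ s = d ∨ s = σ d) {F : S → S → S → Prop} (hU : Universal σ F) {n : ℕ}
    {r : Fin n → Fin n → S} (hr : IsStructure σ r) : 45 * (encoded F r).card ≤ 2 * n ^ 3 := by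
  by_cases hd : σ d = d
  · have hid : ∀ s, σ s = s := by
      intro s
      rcases h2 s with h | h | h
      · exact h
      · rw [h, hd]
      · rw [h, hd, hd]
    have : encoded F r = ∅ := by
      refine eq_empty_of_forall_notMem fun e he => ?_
      obtain ⟨-, x, y, z, -, hF⟩ := mem_encoded.1 he
      exact empty_of_id hid hU _ _ _ hF
    rw [this]
    simp
  · exact upper' hσ hU hd h2 hr

theorem upper {S : Type} [Fintype S] (h4 : Fintype.card S ≤ 4) {σ : S → S}
    (hσ : ∀ s, σ (σ s) = s) (hf : ∀ s, σ s ≠ s) {F : S → S → S → Prop} (hU : Universal σ F)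
    {n : ℕ} {r : Fin n → Fin n → S} (hr : IsStructure σ r) :
    24 * (encoded F r).card + n ≤ n ^ 3 := by
  obtain ⟨π, hi, hl, h⟩ := numbering h4 hσ hf
  refine bound_F (G := num F π) (fun rel hrel u v w t h1 h2 h3 h4 h5 h6 e1 e2 e3 =>
    free3 hU hi h rel hrel h1 h2 h3 h4 h5 h6 e1 e2 e3)
    (rel := fun x y => π (r x y)) ⟨fun x y => hl _, fun x y hxy => ?_⟩
    (fun e he => (mem_encoded.1 he).1) fun e he => edge_num π he
  show π (r y x) = _
  rw [hr x y hxy, h]

/-! ### every `K_4^-`-free 3-graph is encoded with a universal rule -/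

/-- the rule of the 3-graph `H`: the relations are the pairs of vertices -/
def ruleOf {n : ℕ} (H : Finset (Finset (Fin n))) (a b c : Fin n × Fin n) : Prop :=
  ∃ u v w : Fin n, ({u, v, w} : Finset (Fin n)) ∈ H ∧ a = (u, v) ∧ b = (u, w) ∧ c = (v, w)

theorem labels {n m : ℕ} {H : Finset (Finset (Fin n))} {r : Fin m → Fin m → Fin n × Fin n}
    (hr : IsStructure Prod.swap r) {a b c : Fin m} (hab : a ≠ b) (hac : a ≠ c) (hbc : b ≠ c)
    (h : ({a, b, c} : Finset (Fin m)) ∈ encoded (ruleOf H) r) :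
    ruleOf H (r a b) (r a c) (r b c) := by
  obtain ⟨-, x, y, z, he, u, v, w, hH, h1, h2, h3⟩ := mem_encoded.1 h
  have mx : x ∈ ({a, b, c} : Finset (Fin m)) := by rw [he]; simp
  have my : y ∈ ({a, b, c} : Finset (Fin m)) := by rw [he]; simp
  have mz : z ∈ ({a, b, c} : Finset (Fin m)) := by rw [he]; simp
  have h3' : ({x, y, z} : Finset (Fin m)).card = 3 := by
    rw [← he, card_insert_of_notMem (by simp [hab, hac]), card_pair hbc]
  obtain ⟨nxy, nxz, nyz⟩ := inj_of_card h3'
  have g1 : r y x = (v, u) := by rw [hr x y nxy, h1]; rfl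
  have g2 : r z x = (w, u) := by rw [hr x z nxz, h2]; rfl
  have g3 : r z y = (w, v) := by rw [hr y z nyz, h3]; rfl
  have p1 : ({u, w, v} : Finset (Fin n)) ∈ H := by rw [pair_comm w v]; exact hH
  have p2 : ({v, u, w} : Finset (Fin n)) ∈ H := by rw [insert_comm]; exact hH
  have p3 : ({v, w, u} : Finset (Fin n)) ∈ H := by rw [pair_comm w u]; exact p2
  have p4 : ({w, u, v} : Finset (Fin n)) ∈ H := by rw [insert_comm]; exact p1
  have p5 : ({w, v, u} : Finset (Fin n)) ∈ H := by rw [pair_comm v u]; exact p4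
  simp only [mem_insert, mem_singleton] at mx my mz
  rcases mx with rfl | rfl | rfl <;> rcases my with rfl | rfl | rfl <;>
    rcases mz with rfl | rfl | rfl <;>
    first
    | exact absurd rfl nxy
    | exact absurd rfl nxz
    | exact absurd rfl nyz
    | exact ⟨_, _, _, hH, by assumption, by assumption, by assumption⟩
    | exact ⟨_, _, _, p1, by assumption, by assumption, by assumption⟩
    | exact ⟨_, _, _, p2, by assumption, by assumption, by assumption⟩
    | exact ⟨_, _, _, p3, by assumption, by assumption, by assumption⟩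
    | exact ⟨_, _, _, p4, by assumption, by assumption, by assumption⟩
    | exact ⟨_, _, _, p5, by assumption, by assumption, by assumption⟩

theorem universal_ruleOf {n : ℕ} {H : Finset (Finset (Fin n))} (h3 : ∀ e ∈ H, e.card = 3)
    (hK : K4MinusFree H) : Universal Prod.swap (ruleOf H) := by
  intro m r hr a b c d hab hac had hbc hbd hcd ⟨m1, m2, m3⟩
  obtain ⟨u, v, w, q1, e1, e2, e3⟩ := labels hr hab hac hbc m1
  obtain ⟨u', v', t, q2, e4, e5, e6⟩ := labels hr hab had hbd m2
  obtain ⟨u1, w1, t1, q3, e7, e8, e9⟩ := labels hr hac had hcd m3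
  rw [e1] at e4
  rw [e2] at e7
  rw [e5] at e8
  simp only [Prod.mk.injEq] at e4 e7 e8
  obtain ⟨rfl, rfl⟩ := e4
  obtain ⟨rfl, rfl⟩ := e7
  obtain ⟨-, rfl⟩ := e8
  obtain ⟨n1, n2, n3⟩ := inj_of_card (h3 _ q1)
  obtain ⟨-, n4, n5⟩ := inj_of_card (h3 _ q2)
  obtain ⟨-, -, n6⟩ := inj_of_card (h3 _ q3)
  exact hK _ _ _ _ n1 n2 n4 n3 n5 n6 ⟨q1, q2, q3⟩

theorem encoded_ruleOf {n : ℕ} {H : Finset (Finset (Fin n))} (h3 : ∀ e ∈ H, e.card = 3) :
    encoded (ruleOf H) (fun x y => (x, y)) = H := by
  ext e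
  constructor
  · intro h
    obtain ⟨-, x, y, z, rfl, u, v, w, hH, h1, h2, -⟩ := mem_encoded.1 h
    simp only [Prod.mk.injEq] at h1 h2
    rw [h1.1, h1.2, h2.2]
    exact hH
  · intro h
    obtain ⟨a, b, c, -, -, -, rfl⟩ := card_eq_three.1 (h3 e h)
    exact mem_encoded.2 ⟨h3 _ h, a, b, c, rfl, a, b, c, h, rfl, rfl, rfl⟩

/-- **`K_4^-` and universal rules with few relations.** Let all 3-graphs encoded with the rule `F` be
`K_4^-`-free. (1) If the involution `σ` exchanges at most one pair of relations, then every 3-graph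
on `n` vertices encoded with `F` has at most `2/45 n^3` edges; this is density `4/15`, less than the
conjectured `2/7`. (2) If there are at most four relations and none is symmetric, it has at most
`(n^3 - n)/24` edges, density `1/4`. (3) Every `K_4^-`-free 3-graph is encoded with a universal rule
on `n^2` relations. -/
theorem result :
    (∀ (S : Type) (σ : S → S), (∀ s, σ (σ s) = s) → (∃ d, ∀ s, σ s = s ∨ s = d ∨ s = σ d) →
      ∀ F : S → S → S → Prop, Universal σ F → ∀ (n : ℕ) (r : Fin n → Fin n → S),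
        IsStructure σ r → 45 * (encoded F r).card ≤ 2 * n ^ 3) ∧
    (∀ (S : Type) (σ : S → S), (∀ s, σ (σ s) = s) → (∀ s, σ s ≠ s) → Finite S →
      Nat.card S ≤ 4 →
      ∀ F : S → S → S → Prop, Universal σ F → ∀ (n : ℕ) (r : Fin n → Fin n → S),
        IsStructure σ r → 24 * (encoded F r).card + n ≤ n ^ 3) ∧
    (∀ (n : ℕ) (H : Finset (Finset (Fin n))), (∀ e ∈ H, e.card = 3) → K4MinusFree H →
      ∃ F : Fin n × Fin n → Fin n × Fin n → Fin n × Fin n → Prop,
        Universal Prod.swap F ∧ IsStructure Prod.swap (fun x y : Fin n => (x, y)) ∧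
          encoded F (fun x y => (x, y)) = H) := by
  refine ⟨fun S σ hσ ⟨d, h⟩ F hU n r hr => upper_sym hσ h hU hr,
    fun S σ hσ hf hfin h4 F hU n r hr => ?_,
    fun _ H h3 hK => ⟨ruleOf H, universal_ruleOf h3 hK, fun _ _ _ => rfl, encoded_ruleOf h3⟩⟩
  have := Fintype.ofFinite S
  exact upper (by rw [← Nat.card_eq_fintype_card]; exact h4) hσ hf hU hr

end Pool.Agent.Results.MP_392c14_co.UniversalRules
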